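import Pool.Agent.ETAB.Iso
import Pool.Agent.ETPN.P
import Pool.Agent.ETPN.HP2

/-!
**THEOREM AB'** (note 2814, helper83): one good symbol `e = s w` with `V_s ∩ V_w` maximal for
inclusion among the `V_s ∩ V_u`, `u ∉ V_s`, refutes a structure with `K4At`.
-/

set_option autoImplicit false
set_option linter.unusedSimpArgs false
set_option linter.unnecessarySeqFocus false
set_option linter.unusedSectionVars false

namespace Pool.Agent.ETAB

open Pool.Agent.Helper58.PLine (QData zm)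
open Pool.Agent.ETCP
open Pool.Agent.ETPF
open Pool.Agent.ETPG
open Pool.Agent.ETPN

variable {V Q : Type} [AddCommGroup V] [Module (ZMod 2) V] {D : QData V Q} {c : Q}

/-- **STEP 1** (VSIG for good symbols) `G_s = V_s + T` -/
theorem vsig [Finite V] (X : TG D c) {s u : V} (hs : Sg D c s) (hu : u ∈ Gx D c s) :
    ∃ τ, τ ∈ Gm D c ∧ C D s (u + τ) := by
  obtain ⟨s0, h1, h2⟩ := X.exists_base hs
  have hs0 : Sg D c s0 := TG.a2 hs h1
  obtain ⟨y, hy1, hy2⟩ := hs.common hs0
  have h3 : D.q s0 (y + u) = c := qa hy2 (h2 u hu)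
  obtain ⟨y', h4, h5⟩ := X.exists_base (Sg.right h3)
  have h6 : C D y' (s0 + s) := h5 _ (TG.gm_sub h1)
  have h7 : C D y (s0 + s) := q_eq_iff.1 (by rw [D.symm y s0, D.symm y s, hy1, hy2])
  have h8 : C D (y' + y) (s0 + s) := h6.add' h7
  refine ⟨y' + (y + u), h4, ?_⟩
  have e : u + (y' + (y + u)) = y' + y := eo (by
    abel_nf <;> simp only [ch2, ch3, ch4, add_zero, zero_add])
  have h9 : C D s0 (y' + y) := by
    have := (h2 u hu).add (h2 _ (TG.gm_sub h4))
    rwa [e] at this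
  rw [e]
  exact (h9.add' h8.symm).of_eq (eo (by
    abel_nf <;> simp only [ch2, ch3, ch4, add_zero, zero_add])) rfl

theorem three' [Finite V] (X : TG D c) {s a : V} (hs : Sg D c s) (ha : Sg D c a)
    (h : a ∈ Gx D c s) : a + s ∈ Gm D c :=
  TP.three ⟨X.he, X.cne, hs, fun b hb hsb => by
    have := X.st _ _ hs hb hsb
    rwa [add_comm] at this⟩ ha h

theorem slot_not_gm (X : TG D c) {s : V} (hs : Sg D c s) : s ∉ Gm D c := by
  intro h
  have h1 := h s hs
  rw [ZModModule.add_self] at h1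
  obtain ⟨r, hr⟩ := h1
  exact X.cne (hr.symm.trans (C.zero' r))

variable (D c) in
/-- the slots modulo the stabilizer -/
def Sb (w : V ⧸ Gm D c) : Prop := ∃ s, Sg D c s ∧ (Gm D c).mkQ s = w

theorem mk_eq {a b : V} : (Gm D c).mkQ a = (Gm D c).mkQ b ↔ a + b ∈ Gm D c := by
  rw [Submodule.mkQ_apply, Submodule.mkQ_apply, Submodule.Quotient.eq, ZModModule.sub_eq_add]

theorem sb_mk {s : V} : Sb D c ((Gm D c).mkQ s) ↔ Sg D c s := by
  constructor
  · rintro ⟨s', h1, h2⟩
    exact TG.sl_of h1 (mk_eq.1 h2)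
  · exact fun h => ⟨s, h, rfl⟩

theorem nn_mk {s y : V} : Nn (Sb D c) ((Gm D c).mkQ s) ((Gm D c).mkQ y) ↔ Sx D c s y := by
  unfold Nn Sx
  rw [← map_add, sb_mk, sb_mk]

theorem kn_mk [Finite V] (X : TG D c) {s u : V} (hs : Sg D c s) :
    Kn (Sb D c) ((Gm D c).mkQ s) ((Gm D c).mkQ u) ↔ u ∈ Gx D c s := by
  constructor
  · rintro ⟨y, h1, h2⟩
    obtain ⟨y, rfl⟩ := (Gm D c).mkQ_surjective y
    rw [← map_add] at h2
    rw [nn_mk] at h1 h2
    have := (X.sx_iff' hs h1).1 h2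
    rwa [show y + u + y = u from eo (by
      abel_nf <;> simp only [ch2, ch3, ch4, add_zero, zero_add])] at this
  · intro h
    obtain ⟨y, hy⟩ := hs
    have h1 : Sx D c s y := X.sx_of hy
    refine ⟨(Gm D c).mkQ y, nn_mk.2 h1, ?_⟩
    rw [← map_add]
    exact nn_mk.2 (h y h1)

theorem adS [Finite V] (X : TG D c) : AdS (Sb D c) where
  nz := by
    intro h
    rw [← map_zero (Gm D c).mkQ, sb_mk] at h
    obtain ⟨r, hr⟩ := h
    exact X.cne (hr.symm.trans (C.zero' r))
  h1 := by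
    intro s y y' y'' hs hy hy' hy''
    obtain ⟨s, rfl⟩ := (Gm D c).mkQ_surjective s
    obtain ⟨y, rfl⟩ := (Gm D c).mkQ_surjective y
    obtain ⟨y', rfl⟩ := (Gm D c).mkQ_surjective y'
    obtain ⟨y'', rfl⟩ := (Gm D c).mkQ_surjective y''
    rw [sb_mk] at hs
    rw [nn_mk] at hy hy' hy''
    rw [← map_add, ← map_add, nn_mk]
    have h1 := (X.sx_iff' hs hy').1 hy
    have h2 := h1 _ hy''
    rwa [show y'' + (y + y') = y + y' + y'' from by abel] at h2
  h2 := by
    intro s y y' hs hy hy' h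
    obtain ⟨s, rfl⟩ := (Gm D c).mkQ_surjective s
    obtain ⟨y, rfl⟩ := (Gm D c).mkQ_surjective y
    obtain ⟨y', rfl⟩ := (Gm D c).mkQ_surjective y'
    rw [sb_mk] at hs
    rw [nn_mk] at hy hy'
    rw [← map_add] at h ⊢
    rw [sb_mk] at h
    exact mk_eq.2 (three' X hs h ((X.sx_iff' hs hy').1 hy))
  h3 := by
    intro s r hs hr
    obtain ⟨s, rfl⟩ := (Gm D c).mkQ_surjective s
    obtain ⟨r, rfl⟩ := (Gm D c).mkQ_surjective r
    rw [sb_mk] at hs hr
    obtain ⟨y, h1, h2⟩ := hs.common hr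
    exact ⟨(Gm D c).mkQ y, nn_mk.2 (X.sx_of h1), nn_mk.2 (X.sx_of h2)⟩

/-- a good symbol with an isolated slot (mod the stabilizer) refutes a structure with `K4At` -/
theorem false_of_isolated [Finite V] (k4 : ∀ z, z ≠ 0 → ETCD2.K4At D z) (X : TG D c) {s : V}
    (hs : Sg D c s) (hi : ∀ z u, Sg D c z → z + s ∉ Gm D c → u ∈ Gx D c s → u ∈ Gx D c z →
      u ∈ Gm D c) : False := by
  have Z : Is (Sb D c) ((Gm D c).mkQ s) := by
    refine ⟨sb_mk.2 hs, fun w u hw wz h1 h2 => ?_⟩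
    obtain ⟨w, rfl⟩ := (Gm D c).mkQ_surjective w
    obtain ⟨u, rfl⟩ := (Gm D c).mkQ_surjective u
    rw [sb_mk] at hw
    rw [kn_mk X hs] at h1
    rw [kn_mk X hw] at h2
    have := hi w u hw (fun h => wz (mk_eq.2 h)) h1 h2
    rw [Submodule.mkQ_apply, Submodule.Quotient.mk_eq_zero]
    exact this
  have : Finite (V ⧸ Gm D c) := Finite.of_surjective _ (Gm D c).mkQ_surjective
  obtain ⟨a, h1, h2⟩ := (adS X).iso Z
  obtain ⟨a, rfl⟩ := (Gm D c).mkQ_surjective a
  rw [sb_mk] at h1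
  obtain ⟨y0, hy0⟩ := h1
  have ha : Sg D c a := ⟨y0, hy0⟩
  have h3 : Sx D c a y0 := X.sx_of hy0
  have h4 : y0 ∉ Gx D c a := by
    intro h
    have h5 := three' X ha h3.1 h
    exact slot_not_gm X h3.2 h5
  obtain ⟨l, h5, h6⟩ := ETC.exists_dual_sep h4
  refine false_of_HP X.he X.cne k4 (E := Gx D c a ⊔ Submodule.span (ZMod 2) {y0}) (l := l)
    ?_ ?_ ⟨y0, Submodule.mem_sup_right (Submodule.mem_span_singleton_self _), h5⟩
  · intro s' hs'
    rcases h2 _ (sb_mk.2 hs') with h7 | h7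
    · refine Submodule.mem_sup_left ?_
      have h8 := (Gx D c a).add_mem (TG.gm_sub (mk_eq.1 h7)) (X.ann_sub' ha (C.self X.he a))
      rwa [av] at h8
    · rw [nn_mk] at h7
      have h8 := (X.sx_iff' ha h3).1 h7
      have h9 := Submodule.add_mem _ (Submodule.mem_sup_left (T := Submodule.span (ZMod 2) {y0}) h8)
        (Submodule.mem_sup_right (S := Gx D c a) (Submodule.mem_span_singleton_self y0))
      rwa [av] at h9
  · intro v hv hl
    obtain ⟨g, hg, k, hk, rfl⟩ := Submodule.mem_sup.1 hv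
    obtain ⟨r, rfl⟩ := Submodule.mem_span_singleton.1 hk
    rw [map_add, h6 g hg, zero_add, map_smul, h5, smul_eq_mul, mul_one] at hl
    rw [hl, one_smul, add_comm]
    exact (hg y0 h3).1

/-- **THEOREM AB'** (note 2814, helper83) -/
theorem false_of_AB' [Finite V] (k4 : ∀ z, z ≠ 0 → ETCD2.K4At D z) (X : TG D c) {s w : V}
    (hsw : D.q s w = c)
    (hmax : ∀ u, ¬ C D s u → (∀ v, C D s v → C D w v → C D u v) →
      ∀ v, C D s v → C D u v → C D w v) : False := by
  have hs : Sg D c s := ⟨w, hsw⟩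
  have hw : Sg D c w := Sg.right hsw
  -- `A ⊆ T`
  have hA : ∀ v, C D s v → C D w v → v ∈ Gm D c := by
    intro v h1 h2
    have h3 := (adS X).f1 (sb_mk.2 hs) (nn_mk.2 (X.sx_of hsw))
      ((kn_mk X hs).2 (X.ann_sub' hs h1)) ((kn_mk X hw).2 (X.ann_sub' hw h2))
    rwa [Submodule.mkQ_apply, Submodule.Quotient.mk_eq_zero] at h3
  refine false_of_isolated k4 X hs fun z u hz hzs h1 h2 => ?_
  obtain ⟨z0, h3, h4⟩ := X.exists_base hz
  have hz0 : Sg D c z0 := TG.a2 hz h3
  obtain ⟨τ, h5, h6⟩ := vsig X hs h1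
  have h7 : C D z0 (u + τ) := (h4 u h2).add (h4 τ (TG.gm_sub h5))
  have h8 : ¬ C D s z0 := by
    intro h
    apply hzs
    have := (Gm D c).add_mem (X.st _ _ hs hz0 h) h3
    rwa [show s + z0 + (z0 + z) = z + s from eo (by
      abel_nf <;> simp only [ch2, ch3, ch4, add_zero, zero_add])] at this
  have h9 := hmax z0 h8 (fun v g1 g2 => h4 v (TG.gm_sub (hA v g1 g2))) (u + τ) h6 h7
  have h10 := (Gm D c).add_mem (hA _ h6 h9) h5
  rwa [av] at h10

/-- THEOREM AB' with (ST) at one slot only -/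
theorem false_of_AB'_slot [Finite V] (he : D.e = 0) (k4 : ∀ z, z ≠ 0 → ETCD2.K4At D z)
    {s w t : V} (hs : ¬ C D s w) (ht : Sg D (D.q s w) t)
    (st : ∀ b, Sg D (D.q s w) b → C D t b → b + t ∈ Gm D (D.q s w))
    (hmax : ∀ u, ¬ C D s u → (∀ v, C D s v → C D w v → C D u v) →
      ∀ v, C D s v → C D u v → C D w v) : False := by
  have X : TP D (D.q s w) t := ⟨he, hs, ht, st⟩
  refine false_of_AB' k4 (c := D.q s w) ⟨he, hs, fun a b h1 h2 h3 => ?_⟩ rfl hmax
  have := (X.all h1).st b h2 h3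
  rwa [add_comm] at this

/-- a `w ∉ V_s` with `V_s ∩ V_w` maximal for inclusion, above a given `u0` -/
theorem exists_max [Finite V] {s u0 : V} (h0 : ¬ C D s u0) : ∃ w, ¬ C D s w ∧
    (∀ v, C D s v → C D u0 v → C D w v) ∧
    ∀ u, ¬ C D s u → (∀ v, C D s v → C D w v → C D u v) → ∀ v, C D s v → C D u v → C D w v := by
  classical
  have : Fintype V := Fintype.ofFinite V
  obtain ⟨w, hw, hmax⟩ := Finset.exists_max_image
    (Finset.univ.filter fun w => ¬ C D s w ∧ ∀ v, C D s v → C D u0 v → C D w v)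
    (fun v => (Finset.univ.filter fun a => C D s a ∧ C D v a).card)
    ⟨u0, by
      simp only [Finset.mem_filter, Finset.mem_univ, true_and]
      exact ⟨h0, fun v _ h => h⟩⟩
  simp only [Finset.mem_filter, Finset.mem_univ, true_and] at hw
  refine ⟨w, hw.1, hw.2, fun u hu h1 v h2 h3 => ?_⟩
  have h4 := hmax u (by
    simp only [Finset.mem_filter, Finset.mem_univ, true_and]
    exact ⟨hu, fun v g1 g2 => h1 v g1 (hw.2 v g1 g2)⟩)
  have h5 : (Finset.univ.filter fun a => C D s a ∧ C D w a) ⊆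
      (Finset.univ.filter fun a => C D s a ∧ C D u a) := by
    intro a ha
    simp only [Finset.mem_filter, Finset.mem_univ, true_and] at ha ⊢
    exact ⟨ha.1, h1 a ha.1 ha.2⟩
  have h6 := Finset.eq_of_subset_of_card_le h5 h4
  have h7 : v ∈ (Finset.univ.filter fun a => C D s a ∧ C D u a) := by
    simp only [Finset.mem_filter, Finset.mem_univ, true_and]
    exact ⟨h2, h3⟩
  rw [← h6] at h7
  simp only [Finset.mem_filter, Finset.mem_univ, true_and] at h7
  exact h7.2

/-- **THEOREM AB** (note 2814, helper83): one commutative `V_t ≠ V` refutes a structure with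
`K4At` -/
theorem false_of_AB [Finite V] (he : D.e = 0) (k4 : ∀ z, z ≠ 0 → ETCD2.K4At D z)
    {t u0 : V} (h0 : ¬ C D t u0) (hc : ∀ a b, C D t a → C D t b → C D a b) : False := by
  obtain ⟨w, h1, -, h2⟩ := exists_max h0
  refine false_of_AB'_slot he k4 h1 ⟨w, rfl⟩ (fun b hb htb => ?_) h2
  exact (TP.of_comm he h1 ⟨w, rfl⟩ fun a v _ h3 h4 => hc a v h3 h4).st b hb htb

/-- **the NF1 world is closed** (note 2884, section 0, helper94): if the sum of two commuting
slots of the same symbol always stabilizes the set of slots, a structure with `K4At` is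
refuted -/
theorem false_of_NF1 [Finite V] (he : D.e = 0) (k4 : ∀ z, z ≠ 0 → ETCD2.K4At D z)
    {t u0 : V} (h0 : ¬ C D t u0)
    (nf : ∀ w, ¬ C D t w → ∀ b, Sg D (D.q t w) b → C D t b → b + t ∈ Gm D (D.q t w)) :
    False := by
  obtain ⟨w, h1, -, h2⟩ := exists_max h0
  exact false_of_AB'_slot he k4 h1 ⟨w, rfl⟩ (fun b hb htb => nf w h1 b hb htb) h2

/-- **(Z)** (note 2858): a symbol with one slot `t` commuting with no other slot is strongly
clean, and the stabilizer of its slots is zero -/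
theorem sc_all [Finite V] (he : D.e = 0) (cne : c ≠ D.z) {t : V} (ht : Sg D c t)
    (h : ∀ b, Sg D c b → C D t b → b = t) :
    (∀ s a, Sg D c s → Sg D c a → C D s a → a = s) ∧ ∀ g, g ∈ Gm D c → g = 0 := by
  have X : TP D c t := ⟨he, cne, ht, fun b hb htb => by
    rw [h b hb htb, ZModModule.add_self]
    exact Submodule.zero_mem _⟩
  have Y : TG D c := ⟨he, cne, fun a b h1 h2 h3 => by
    have := (X.all h1).st b h2 h3
    rwa [add_comm] at this⟩
  have hT : ∀ g, g ∈ Gm D c → g = 0 := by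
    intro g hg
    obtain ⟨t0, h1, h2⟩ := Y.exists_base ht
    have h3 : C D t0 (t0 + t) := h2 _ (TG.gm_sub h1)
    have h4 : C D t t0 := ((C.self he t0).add h3).symm.of_eq (eo (by
      abel_nf <;> simp only [ch2, ch3, ch4, add_zero, zero_add])) rfl
    have h5 := h t0 (TG.a2 ht h1) h4
    subst h5
    have h6 := h (t0 + g) (hg t0 ht) ((C.self he t0).add (h2 g (TG.gm_sub hg)))
    exact add_eq_left.1 h6
  refine ⟨fun s a hs ha hsa => ?_, hT⟩
  exact eo (hT _ ((X.all hs).st a ha hsa))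

end Pool.Agent.ETAB
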