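import Pool.Agent.ETPG.G2

/-!
**THEOREM ISO** (notes 2807 and 2814, helper83): a finite set `S` in a space over `F_2` such that
`S ∩ (S + s)` is a coset of a subspace `V_s` with `S ∩ V_s = {s}`, any two elements of `S` having
a common neighbour, with an element `z` for which `V_z ∩ V_w = 0` for all `w ≠ z` in `S`, is a
windmill: `S = {a} ∪ N_a` for some `a`.
-/

set_option autoImplicit false
set_option linter.unusedSimpArgs false
set_option linter.unnecessarySeqFocus false
set_option linter.unusedSectionVars false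

namespace Pool.Agent.ETAB

open Pool.Agent.ETCP (ch2 ch3 ch4 eo)

variable {W : Type} [AddCommGroup W] [Module (ZMod 2) W]

/-- neighbours of `s` -/
def Nn (S : W → Prop) (s y : W) : Prop := S y ∧ S (y + s)

/-- `V_s`: the differences of neighbours of `s` -/
def Kn (S : W → Prop) (s u : W) : Prop := ∃ y, Nn S s y ∧ Nn S s (y + u)

/-- the hypotheses of THEOREM ISO without the isolated element -/
structure AdS (S : W → Prop) : Prop where
  nz : ¬ S 0
  h1 : ∀ s y y' y'', S s → Nn S s y → Nn S s y' → Nn S s y'' → Nn S s (y + y' + y'')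
  h2 : ∀ s y y', S s → Nn S s y → Nn S s y' → S (y + y') → y + y' = s
  h3 : ∀ s r, S s → S r → ∃ y, Nn S s y ∧ Nn S r y

theorem av (a b : W) : a + b + b = a := eo (by
  abel_nf <;> simp only [ch2, ch3, ch4, add_zero, zero_add])

theorem aa0 (a : W) : a + a = 0 := ZModModule.add_self a

namespace AdS

variable {S : W → Prop} (X : AdS S)

include X

theorem ne_zero {s : W} (hs : S s) : s ≠ 0 := by
  rintro rfl
  exact X.nz hs

omit X in
theorem symm {s y : W} (hs : S s) (h : Nn S s y) : Nn S y s := ⟨hs, by rw [add_comm]; exact h.2⟩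

omit X in
theorem self {s y : W} (_hs : S s) (h : Nn S s y) : Nn S s (y + s) :=
  ⟨h.2, by rw [av]; exact h.1⟩

omit X in
theorem third {s y : W} (hs : S s) (h : Nn S s y) : Nn S y (y + s) :=
  ⟨h.2, by rw [show y + s + y = s from eo (by
    abel_nf <;> simp only [ch2, ch3, ch4, add_zero, zero_add])]; exact hs⟩

omit X in
theorem diff {s y y' : W} (h : Nn S s y) (h' : Nn S s y') : Kn S s (y + y') :=
  ⟨y, h, by rw [show y + (y + y') = y' from eo (by
    abel_nf <;> simp only [ch2, ch3, ch4, add_zero, zero_add])]; exact h'⟩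

theorem shift {s y u : W} (hs : S s) (h : Nn S s y) (hu : Kn S s u) : Nn S s (y + u) := by
  obtain ⟨y0, h1, h2⟩ := hu
  have := X.h1 s _ _ _ hs h h1 h2
  rwa [show y + y0 + (y0 + u) = y + u from eo (by
    abel_nf <;> simp only [ch2, ch3, ch4, add_zero, zero_add])] at this

theorem kadd {s u v : W} (hs : S s) (hu : Kn S s u) (hv : Kn S s v) : Kn S s (u + v) := by
  obtain ⟨y0, h1, h2⟩ := hu
  have h3 := X.shift hs h2 hv
  exact ⟨y0, h1, by rwa [show y0 + (u + v) = y0 + u + v from by abel]⟩

theorem kself {s : W} (hs : S s) : Kn S s s := by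
  obtain ⟨y, h1, -⟩ := X.h3 s s hs hs
  exact ⟨y, h1, self hs h1⟩

theorem kzero {s : W} (hs : S s) : Kn S s 0 := by
  obtain ⟨y, h1, -⟩ := X.h3 s s hs hs
  exact ⟨y, h1, by rwa [add_zero]⟩

/-- a neighbour of `s` is not in `V_s` -/
theorem slot_k {s w : W} (hs : S s) (hw : S w) (h : Kn S s w) : w = s := by
  obtain ⟨y, h1, h2⟩ := h
  have := X.h2 s y (y + w) hs h1 h2 (by
    rwa [show y + (y + w) = w from eo (by
      abel_nf <;> simp only [ch2, ch3, ch4, add_zero, zero_add])])
  rwa [show y + (y + w) = w from eo (by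
    abel_nf <;> simp only [ch2, ch3, ch4, add_zero, zero_add])] at this

theorem nself {s : W} : ¬ Nn S s s := fun h => by
  have := h.2
  rw [aa0] at this
  exact X.nz this

/-- **F1** adjacent elements have `V_s ∩ V_r = 0` -/
theorem f1 {s r u : W} (hs : S s) (hr : Nn S s r) (h1 : Kn S s u) (h2 : Kn S r u) : u = 0 := by
  have h3 : Nn S s (r + u) := X.shift hs hr h1
  have h4 : r + u = r := X.slot_k hr.1 h3.1 (X.kadd hr.1 (X.kself hr.1) h2)
  have : r + (r + u) = r + r := by rw [h4]
  rwa [show r + (r + u) = u from eo (by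
    abel_nf <;> simp only [ch2, ch3, ch4, add_zero, zero_add]), aa0] at this

/-- the common neighbour of adjacent elements -/
theorem f1' {s r p : W} (hs : S s) (hr : Nn S s r) (h1 : Nn S s p) (h2 : Nn S r p) :
    p = r + s := by
  have h3 := X.f1 hs hr (diff h1 (self hs hr)) (diff h2 (third hs hr))
  exact eo h3

end AdS

/-- `z` is isolated -/
def Is (S : W → Prop) (z : W) : Prop := S z ∧ ∀ w u, S w → w ≠ z → Kn S z u → Kn S w u → u = 0

/-- far elements -/
def Fr (S : W → Prop) (z w : W) : Prop := S w ∧ w ≠ z ∧ ¬ Nn S z w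

namespace AdS

variable {S : W → Prop} (X : AdS S) {z : W} (Z : Is S z)

include X Z

/-- uniqueness of the common neighbour with `z` -/
theorem un {w n n' : W} (hw : S w) (wz : w ≠ z) (h1 : Nn S z n) (h2 : Nn S w n)
    (h1' : Nn S z n') (h2' : Nn S w n') : n = n' :=
  eo (Z.2 w _ hw wz (diff h1 h1') (diff h2 h2'))

theorem far_star {w n : W} (hw : Fr S z w) (h1 : Nn S z n) (h2 : Nn S w n) :
    Fr S z (w + n) := by
  refine ⟨by rw [add_comm]; exact h2.2, ?_, ?_⟩
  · intro h
    apply hw.2.2
    refine ⟨hw.1, ?_⟩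
    have : w + z = n := by
      rw [← h]
      exact eo (by abel_nf <;> simp only [ch2, ch3, ch4, add_zero, zero_add])
    rw [this]; exact h1.1
  · intro h
    have h3 : Kn S z w := by
      have := diff h h1
      rwa [av] at this
    exact hw.2.1 (X.slot_k Z.1 hw.1 h3)

/-- **(U)** -/
theorem uu {w w' : W} (hw : Fr S z w) (hw' : Fr S z w') (h : Kn S z (w + w')) : w = w' := by
  obtain ⟨n, h1, h2⟩ := X.h3 z w Z.1 hw.1
  have h3 := X.far_star Z hw h1 h2
  have h4 : Nn S z (w' + (w + n)) := by
    have := X.shift Z.1 h1 h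
    rwa [show n + (w + w') = w' + (w + n) from by abel] at this
  have h5 : Nn S (w + n) (w' + (w + n)) := ⟨h4.1, by rw [av]; exact hw'.1⟩
  have h6 : Nn S (w + n) n := ⟨h1.1, by
    rw [show n + (w + n) = w from eo (by
      abel_nf <;> simp only [ch2, ch3, ch4, add_zero, zero_add])]; exact hw.1⟩
  have h7 := X.un Z h3.1 h3.2.1 h4 h5 h1 h6
  have : w + n + (w' + (w + n)) = w + n + n := by rw [h7]
  rw [av, show w + n + (w' + (w + n)) = w' from eo (by
      abel_nf <;> simp only [ch2, ch3, ch4, add_zero, zero_add])] at this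
  exact this.symm

/-- neighbours of a far element, other than `n (w)`, are far -/
theorem nb_far {w m p : W} (hw : Fr S z w) (h1 : Nn S z m) (h2 : Nn S w m) (hp : Nn S w p)
    (hm : p ≠ m) : Fr S z p := by
  refine ⟨hp.1, ?_, fun h => hm (X.un Z hw.1 hw.2.1 h hp h1 h2)⟩
  rintro rfl
  exact hw.2.2 (symm hw.1 hp)

/-- **Claim 2** -/
theorem cl2 {w m n u : W} (hw : Fr S z w) (h1 : Nn S z m) (h2 : Nn S w m) (hn : Nn S z n)
    (hu : Kn S w u) (hu' : Kn S n u) (u0 : u ≠ 0) : Nn S n (m + u) := by
  have h3 : Nn S w (m + u) := X.shift hw.1 h2 hu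
  have h4 : Fr S z (m + u) := X.nb_far Z hw h1 h2 h3 fun h => u0 (by
    have : m + (m + u) = m + m := by rw [h]
    rwa [show m + (m + u) = u from eo (by
      abel_nf <;> simp only [ch2, ch3, ch4, add_zero, zero_add]), aa0] at this)
  have h5 : Nn S n z := symm Z.1 hn
  have h6 : Nn S n (z + (u + n)) := X.shift hn.1 h5 (X.kadd hn.1 hu' (X.kself hn.1))
  have h7 : Kn S z (m + u + (z + (u + n))) := by
    have := X.kadd Z.1 (diff h1 hn) (X.kself Z.1)
    rwa [show m + n + z = m + u + (z + (u + n)) from eo (by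
      abel_nf <;> simp only [ch2, ch3, ch4, add_zero, zero_add])] at this
  have h8 : Fr S z (z + (u + n)) := by
    refine ⟨h6.1, ?_, ?_⟩
    · intro h
      rw [h] at h7
      have := X.kadd Z.1 h7 (X.kself Z.1)
      rw [av] at this
      exact h4.2.1 (X.slot_k Z.1 h4.1 this)
    · intro h
      apply h4.2.2
      have := X.shift Z.1 h h7
      rwa [show z + (u + n) + (m + u + (z + (u + n))) = m + u from eo (by
        abel_nf <;> simp only [ch2, ch3, ch4, add_zero, zero_add])] at this
  rw [X.uu Z h4 h8 h7]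
  exact h6

/-- **F3** -/
theorem f3 {w m n u : W} (hw : Fr S z w) (h1 : Nn S z m) (h2 : Nn S w m) (hn : Nn S z n)
    (hne : m ≠ n + z) (hu : Kn S w u) (hu' : Kn S n u) : u = 0 := by
  by_contra u0
  have h3 := X.cl2 Z hw h1 h2 hn hu hu' u0
  have h4 : Nn S n m := by
    have := X.shift hn.1 h3 hu'
    rwa [av] at this
  exact hne (X.f1' Z.1 hn h1 h4)

end AdS

open Classical in
/-- indicator modulo 2 -/
noncomputable def iz (P : Prop) : ZMod 2 := if P then 1 else 0

theorem iz_true {P : Prop} (h : P) : iz P = 1 := if_pos h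

theorem iz_false {P : Prop} (h : ¬ P) : iz P = 0 := if_neg h

theorem iz_congr {P P' : Prop} (h : P ↔ P') : iz P = iz P' := by rw [propext h]

theorem iz_and (P P' : Prop) : iz (P ∧ P') = iz P * iz P' := by
  by_cases h : P
  · by_cases h' : P'
    · rw [iz_true ⟨h, h'⟩, iz_true h, iz_true h', mul_one]
    · rw [iz_false fun k => h' k.2, iz_false h', mul_zero]
  · rw [iz_false fun k => h k.1, iz_false h, zero_mul]

/-- a sum of values paired off by a translation is zero -/
theorem sum_tr [Fintype W] (f : W → ZMod 2) {a : W} (ha : a ≠ 0) (h : ∀ u, f (u + a) = f u) :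
    ∑ u, f u = 0 := by
  refine Finset.sum_involution (fun u _ => u + a) (fun u _ => ?_) (fun u _ _ h' => ha ?_)
    (fun u _ => Finset.mem_univ _) fun u _ => ?_
  · rw [h]; exact CharTwo.add_self_eq_zero _
  · exact add_eq_left.1 h'
  · exact av u a

theorem sum_one [Fintype W] {P : W → Prop} {a : W} (h : ∀ u, P u ↔ u = a) :
    ∑ u, iz (P u) = 1 := by
  rw [Finset.sum_eq_single a (fun b _ hb => iz_false fun k => hb ((h b).1 k))
    fun k => absurd (Finset.mem_univ _) k]
  exact iz_true ((h a).2 rfl)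

namespace AdS

variable {S : W → Prop} (X : AdS S) {z : W} (Z : Is S z)

include X Z

/-- **F4** `V_w ∩ V_n = 0` for all far `w` and all `n ∈ N_z` -/
theorem f4 [Finite W] {w n u : W} (hw : Fr S z w) (hn : Nn S z n) (hu : Kn S w u)
    (hu' : Kn S n u) : u = 0 := by
  have := Fintype.ofFinite W
  obtain ⟨m, h1, h2⟩ := X.h3 z w Z.1 hw.1
  by_contra u0
  have h0 : m = n + z := by
    by_contra hne
    exact u0 (X.f3 Z hw h1 h2 hn hne hu hu')
  -- double counting
  have e1 : ∀ p, iz (Nn S w p) * (∑ n, iz (Nn S z n ∧ Nn S n p)) = iz (Nn S w p) := by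
    intro p
    by_cases hp : Nn S w p
    · have pz : p ≠ z := by
        rintro rfl
        exact hw.2.2 (symm hw.1 hp)
      obtain ⟨n, h3, h4⟩ := X.h3 z p Z.1 hp.1
      rw [sum_one (a := n), mul_one]
      intro n'
      constructor
      · rintro ⟨h5, h6⟩
        exact X.un Z hp.1 pz h5 (symm h5.1 h6) h3 h4
      · rintro rfl
        exact ⟨h3, symm hp.1 h4⟩
    · rw [iz_false hp, zero_mul]
  have e2 : ∑ p, iz (Nn S w p) = 0 := by
    refine sum_tr _ (X.ne_zero hw.1) fun p => iz_congr ⟨fun h => ?_, self hw.1⟩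
    have := self hw.1 h
    rwa [av] at this
  have e3 : ∑ p, iz (Nn S z p) = 0 := by
    refine sum_tr _ (X.ne_zero Z.1) fun p => iz_congr ⟨fun h => ?_, self Z.1⟩
    have := self Z.1 h
    rwa [av] at this
  have e4 : ∀ n', iz (Nn S z n') * (∑ p, iz (Nn S w p ∧ Nn S n' p)) =
      iz (Nn S z n') - iz (n' = n) := by
    intro n'
    by_cases h : Nn S z n'
    · by_cases hne : n' = n
      · rw [iz_true hne, iz_true h, sub_self, one_mul, hne]
        refine sum_tr _ u0 fun p => iz_congr ⟨fun h => ?_, fun h => ?_⟩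
        · have h3 := X.shift hw.1 h.1 hu
          have h4 := X.shift hn.1 h.2 hu'
          rw [av] at h3 h4
          exact ⟨h3, h4⟩
        · exact ⟨X.shift hw.1 h.1 hu, X.shift hn.1 h.2 hu'⟩
      · rw [iz_false hne, sub_zero]
        obtain ⟨p, h3, h4⟩ := X.h3 w n' hw.1 h.1
        rw [sum_one (a := p), mul_one]
        intro p'
        constructor
        · rintro ⟨h5, h6⟩
          refine eo (X.f3 Z hw h1 h2 h (fun h7 => hne ?_) (diff h5 h3) (diff h6 h4))
          rw [h0] at h7
          exact (add_right_cancel h7).symm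
        · rintro rfl
          exact ⟨h3, h4⟩
    · have h5 : n' ≠ n := by
        rintro rfl
        exact h hn
      rw [iz_false h, iz_false h5, zero_mul, sub_zero]
  have e5 : ∑ p, iz (Nn S w p) = ∑ n', (iz (Nn S z n') - iz (n' = n)) := by
    calc ∑ p, iz (Nn S w p)
        = ∑ p, ∑ n, iz (Nn S w p) * iz (Nn S z n ∧ Nn S n p) := by
          refine Finset.sum_congr rfl fun p _ => ?_
          rw [← Finset.mul_sum, e1 p]
      _ = ∑ n, ∑ p, iz (Nn S w p) * iz (Nn S z n ∧ Nn S n p) := Finset.sum_comm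
      _ = _ := by
          refine Finset.sum_congr rfl fun n' _ => ?_
          rw [← e4 n', Finset.mul_sum]
          refine Finset.sum_congr rfl fun p _ => ?_
          simp only [iz_and]; ring
  rw [e2, Finset.sum_sub_distrib, e3, sum_one (a := n) fun u => Iff.rfl] at e5
  exact absurd e5 (by decide)

/-- **F6** every neighbour of `z` is isolated -/
theorem f6 [Finite W] {n : W} (hn : Nn S z n) : Is S n := by
  refine ⟨hn.1, fun w u hw wn h1 h2 => ?_⟩
  by_cases wz : w = z
  · subst wz
    exact X.f1 Z.1 hn h2 h1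
  by_cases hwz : Nn S z w
  · by_cases h3 : w = n + z
    · subst h3
      exact X.f1 hn.1 (third Z.1 hn) h1 h2
    -- `N_n ∩ N_w = {z}`
    have h4 : Nn S n (z + u) := X.shift hn.1 (symm Z.1 hn) h1
    have h5 : Nn S w (z + u) := X.shift hwz.1 (symm Z.1 hwz) h2
    have h6 : z + u = z := by
      by_contra hne
      by_cases h7 : Nn S z (z + u)
      · have h8 := X.f1' Z.1 hn h7 h4
        have h9 := X.f1' Z.1 hwz h7 h5
        exact wn (add_right_cancel (h9.symm.trans h8))
      · have h8 := X.un Z h4.1 hne hn (symm hn.1 h4) hwz (symm hwz.1 h5)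
        exact wn h8.symm
    have : z + (z + u) = z + z := by rw [h6]
    rwa [show z + (z + u) = u from eo (by
      abel_nf <;> simp only [ch2, ch3, ch4, add_zero, zero_add]), aa0] at this
  · exact X.f4 Z ⟨hw, wz, hwz⟩ hn h2 h1

omit Z in
/-- **SUM** -/
theorem sumS [Fintype W] (h4 : ∀ y, S y → ∃ b, Kn S y b ∧ b ≠ 0 ∧ b ≠ y)
    (l : Module.Dual (ZMod 2) W) {s : W} (Z : Is S s) :
    ∑ p, iz (S p) * l p = l s := by
  have e1 : ∀ y, S y → ∑ p, iz (Nn S y p) * l p = 0 := by
    intro y hy
    obtain ⟨a, h1, h2, h3⟩ : ∃ a, Kn S y a ∧ a ≠ 0 ∧ l a = 0 := by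
      obtain ⟨b, h1, h2, h3⟩ := h4 y hy
      rcases Pool.Agent.Helper58.PLine.zm (l y) with h5 | h5
      · exact ⟨y, X.kself hy, X.ne_zero hy, h5⟩
      rcases Pool.Agent.Helper58.PLine.zm (l b) with h6 | h6
      · exact ⟨b, h1, h2, h6⟩
      · refine ⟨b + y, X.kadd hy h1 (X.kself hy), fun h => h3 (eo h), ?_⟩
        rw [map_add, h5, h6]
        decide
    refine sum_tr _ h2 fun p => ?_
    rw [map_add, h3, add_zero]
    congr 1
    refine iz_congr ⟨fun h => ?_, fun h => X.shift hy h h1⟩
    have := X.shift hy h h1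
    rwa [av] at this
  have e2 : ∑ y, iz (Nn S s y) * ∑ p, iz (Nn S y p) * l p = 0 := by
    refine Finset.sum_eq_zero fun y _ => ?_
    by_cases h : Nn S s y
    · rw [e1 y h.1, mul_zero]
    · rw [iz_false h, zero_mul]
  have e3 : ∀ p, ∑ y, iz (Nn S s y) * iz (Nn S y p) = iz (S p) - iz (p = s) := by
    intro p
    by_cases hp : S p
    · by_cases hps : p = s
      · subst hps
        rw [iz_true hp, iz_true rfl, sub_self]
        refine sum_tr _ (X.ne_zero hp) fun y => ?_
        rw [← iz_and, ← iz_and]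
        refine iz_congr ⟨fun h => ?_, fun h => ?_⟩
        · have h3 := self hp h.1
          rw [av] at h3
          exact ⟨h3, symm hp h3⟩
        · have h3 := self hp h.1
          exact ⟨h3, symm hp h3⟩
      · rw [iz_true hp, iz_false hps, sub_zero]
        obtain ⟨n, h3, h5⟩ := X.h3 s p Z.1 hp
        rw [← sum_one (P := fun y => Nn S s y ∧ Nn S y p) (a := n)]
        · exact Finset.sum_congr rfl fun y _ => (iz_and _ _).symm
        · intro y
          constructor
          · rintro ⟨h6, h7⟩
            exact X.un Z hp hps h6 (symm h6.1 h7) h3 h5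
          · rintro rfl
            exact ⟨h3, symm hp h5⟩
    · have hps : p ≠ s := by
        rintro rfl
        exact hp Z.1
      rw [iz_false hp, iz_false hps, sub_zero]
      refine Finset.sum_eq_zero fun y _ => ?_
      rw [iz_false (P := Nn S y p) fun h => hp h.1, mul_zero]
  have e4 : ∑ p, (iz (S p) - iz (p = s)) * l p = 0 := by
    rw [← e2]
    calc ∑ p, (iz (S p) - iz (p = s)) * l p
        = ∑ p, ∑ y, iz (Nn S s y) * (iz (Nn S y p) * l p) := by
          refine Finset.sum_congr rfl fun p _ => ?_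
          rw [← e3 p, Finset.sum_mul]
          exact Finset.sum_congr rfl fun y _ => mul_assoc _ _ _
      _ = ∑ y, ∑ p, iz (Nn S s y) * (iz (Nn S y p) * l p) := Finset.sum_comm
      _ = _ := Finset.sum_congr rfl fun y _ => (Finset.mul_sum _ _ _).symm
  simp only [sub_mul] at e4
  rw [Finset.sum_sub_distrib, Finset.sum_eq_single s (f := fun p => iz (p = s) * l p)
    (fun b _ hb => by rw [iz_false hb, zero_mul]) fun k => absurd (Finset.mem_univ _) k,
    iz_true rfl, one_mul] at e4
  exact sub_eq_zero.1 e4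

/-- some `V_y` has order 2 -/
theorem small [Finite W] : ∃ y, S y ∧ ∀ b, Kn S y b → b = 0 ∨ b = y := by
  have := Fintype.ofFinite W
  by_contra hcon
  push Not at hcon
  obtain ⟨n, h1, -⟩ := X.h3 z z Z.1 Z.1
  have h2 : n + z ≠ 0 := fun h => by
    have := h1.2
    rw [h] at this
    exact X.nz this
  have h3 : n + z ∉ (⊥ : Submodule (ZMod 2) W) := fun h => h2 ((Submodule.mem_bot _).1 h)
  obtain ⟨l, h4, -⟩ := ETC.exists_dual_sep h3
  have e1 := X.sumS hcon l Z
  have e2 := X.sumS hcon l (X.f6 Z h1)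
  rw [map_add, ← e1, ← e2] at h4
  rw [CharTwo.add_self_eq_zero] at h4
  exact zero_ne_one h4

omit Z in
/-- the end of the proof: `V_z = {0, z}` -/
theorem windmill [Finite W] {z : W} (hz : S z) (hb : ∀ b, Kn S z b → b = 0 ∨ b = z) :
    ∃ a, S a ∧ ∀ s, S s → s = a ∨ Nn S a s := by
  have Z : Is S z := ⟨hz, fun w u hw wz h1 h2 => (hb u h1).resolve_right fun h => by
    subst h
    exact wz (X.slot_k hw hz h2).symm⟩
  by_cases hf : ∃ w, Fr S z w
  · obtain ⟨w0, hw0⟩ := hf
    obtain ⟨a, h1, h2⟩ := X.h3 z w0 hz hw0.1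
    refine ⟨a, h1.1, fun s hs => ?_⟩
    -- neighbours of `z`
    have hN : ∀ n n', Nn S z n → Nn S z n' → n' = n ∨ n' = n + z := by
      intro n n' h3 h4
      rcases hb _ (diff h4 h3) with h5 | h5
      · exact Or.inl (eo h5)
      · right
        rw [← h5]
        exact eo (by abel_nf <;> simp only [ch2, ch3, ch4, add_zero, zero_add])
    -- neighbours of a far element
    have hW : ∀ w m p, Fr S z w → Nn S z m → Nn S w m → Nn S w p → p = m ∨ p = m + w := by
      intro w m p hw h3 h4 h5
      by_cases hpm : p = m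
      · exact Or.inl hpm
      right
      have h6 := X.nb_far Z hw h3 h4 h5 hpm
      obtain ⟨n, h7, h8⟩ := X.h3 z p hz h5.1
      have h7' : Nn S n p := symm h5.1 h8
      rcases hN m n h3 h7 with rfl | rfl
      · -- `m + w ∈ N_w ∩ N_m`
        have h9 : Nn S n (n + w) := third hw.1 h4 |> fun h => ⟨h.1, h.2⟩
        exact eo (X.f4 Z hw h7 (diff h5 (self hw.1 h4)) (diff h7' h9))
      · -- `m ∈ N_w ∩ N_{m+z}`
        have h9 : Nn S (m + z) m := ⟨h3.1, by
          rw [show m + (m + z) = z from eo (by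
            abel_nf <;> simp only [ch2, ch3, ch4, add_zero, zero_add])]
          exact hz⟩
        exact absurd (eo (X.f4 Z hw h7 (diff h5 h4) (diff h7' h9))) hpm
    by_cases hsz : s = z
    · subst hsz
      exact Or.inr (symm hs h1)
    by_cases hsn : Nn S z s
    · rcases hN a s h1 hsn with rfl | rfl
      · exact Or.inl rfl
      · exact Or.inr (third hz h1)
    · have hs' : Fr S z s := ⟨hs, hsz, hsn⟩
      right
      obtain ⟨m, h3, h4⟩ := X.h3 z s hz hs
      obtain ⟨p, h5, h6⟩ := X.h3 w0 s hw0.1 hs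
      have key : a = m := by
        rcases hW w0 a p hw0 h1 h2 h5 with rfl | h7
        · exact X.un Z hs hsz h1 h6 h3 h4
        rcases hW s m p hs' h3 h4 h6 with rfl | h8
        · exact (X.un Z hw0.1 hw0.2.1 h1 h2 h3 h5)
        · -- `p = a + w0 = m + s`
          have h9 : Nn S p a := by
            rw [h7]
            exact ⟨h1.1, by
              rw [show a + (a + w0) = w0 from eo (by
                abel_nf <;> simp only [ch2, ch3, ch4, add_zero, zero_add])]
              exact hw0.1⟩
          have h10 : Nn S p m := by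
            rw [h8]
            exact ⟨h3.1, by
              rw [show m + (m + s) = s from eo (by
                abel_nf <;> simp only [ch2, ch3, ch4, add_zero, zero_add])]
              exact hs⟩
          have h11 : p ≠ z := by
            rintro rfl
            exact hw0.2.2 (symm hw0.1 h5)
          exact X.un Z h5.1 h11 h1 h9 h3 h10
      rw [key]
      exact symm hs h4
  · push Not at hf
    refine ⟨z, hz, fun s hs => ?_⟩
    by_contra hcon
    push Not at hcon
    exact hf s ⟨hs, hcon.1, hcon.2⟩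

/-- **THEOREM ISO** -/
theorem iso [Finite W] : ∃ a, S a ∧ ∀ s, S s → s = a ∨ Nn S a s := by
  obtain ⟨y, h1, h2⟩ := X.small Z
  exact X.windmill h1 h2

end AdS

end Pool.Agent.ETAB
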