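import Pool.Agent.ETPF.ST

/-!
**THEOREM PROD** (note 2858, helper59): a strongly clean symbol `c` (commuting slots of `c` are
equal) all of whose slots are slots of another symbol `e ≠ 0, c` is a product: the span of the
slots is the direct sum of two subspaces commuting with each other, and each slot is a sum.
-/

set_option autoImplicit false
set_option linter.unusedSimpArgs false
set_option linter.unnecessarySeqFocus false
set_option linter.unusedSectionVars false

namespace Pool.Agent.ETAB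

open Pool.Agent.Helper58.PLine (QData zm)
open Pool.Agent.ETCP
open Pool.Agent.ETPF

variable {V Q : Type} [AddCommGroup V] [Module (ZMod 2) V] {D : QData V Q} {c e b : Q}

/-- `c` is strongly clean, its slots are slots of `e`, and `b = c + e` -/
structure PR (D : QData V Q) (c e b : Q) : Prop where
  he : D.e = 0
  sc : ∀ s a, Sg D c s → Sg D c a → C D s a → a = s
  ke : ∀ s, Sg D c s → Sg D e s
  add : ∀ s y x, D.q s y = c → D.q s x = e → D.q s (y + x) = b

variable (D e) in
/-- `r` is `s_e` in the plane `⟨s, y⟩` -/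
def Ee (s y r : V) : Prop := C D s r ∧ D.q y r = e

variable (D c e) in
/-- `r` is `s_e` -/
def Se (s r : V) : Prop := C D s r ∧ ∀ y, D.q s y = c → D.q y r = e

namespace PR

variable (X : PR D c e b)

include X

/-- **3SLOT** -/
theorem slot3 {s t : V} (hs : Sg D c s) (ht : Sg D c t) (h : Sg D c (s + t)) :
    D.q s t = c := by
  obtain ⟨r, h1, h2⟩ := (sg_add ht).1 (by rwa [add_comm] at h)
  have := X.sc s r hs (Sg.right h2) h1
  subst this
  rw [D.symm]; exact h2

theorem slot3' {s t v : V} (h : D.q s t = c) (h1 : C D s v) (h2 : C D t v) : v = 0 := by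
  have h3 : Sg D c (t + v) := Sg.right (qa h h1)
  have h4 := X.sc t (t + v) (Sg.right h) h3 ((C.self X.he t).add h2)
  exact add_eq_left.1 h4

/-- the third point of a line -/
theorem third {s y : V} (h : D.q s y = c) : D.q (s + y) y = c := by
  rw [← h]
  exact q_eq' ((C.self X.he y).of_eq (eo (by
    abel_nf <;> simp only [ch2, ch3, ch4, add_zero, zero_add])) rfl)

theorem third' {s y : V} (h : D.q s y = c) : D.q (s + y) s = c := by
  rw [← h, D.symm s y]
  exact q_eq' ((C.self X.he s).of_eq (eo (by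
    abel_nf <;> simp only [ch2, ch3, ch4, add_zero, zero_add])) rfl)

theorem exE {s y : V} (h : D.q s y = c) : ∃ r, Ee D e s y r := by
  obtain ⟨x1, h1⟩ := X.ke y (Sg.right h)
  obtain ⟨x2, h3⟩ := X.ke (s + y) ⟨y, X.third h⟩
  obtain ⟨r, h4, h5⟩ := D.link _ _ _ _ (h1.trans h3.symm)
  refine ⟨r, ?_, h4.symm.trans h1⟩
  exact (q_eq'_iff.1 (h4.symm.trans ((h1.trans h3.symm).trans h5))).of_eq (eo (by
      abel_nf <;> simp only [ch2, ch3, ch4, add_zero, zero_add])) rfl

theorem uniq {s y r r' : V} (h : D.q s y = c) (h1 : Ee D e s y r) (h2 : Ee D e s y r') :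
    r = r' :=
  eo (X.slot3' h (h1.1.add h2.1) (q_eq_iff.1 (h1.2.trans h2.2.symm)))

/-- `g = 0` -/
theorem gz {s y r k : V} (h : D.q s y = c) (h1 : Ee D e s y r) (h2 : Ee D e y s k) :
    C D r (y + k) := by
  have h3 : D.q (s + y) r = e := by
    rw [← h1.2]
    exact q_eq' (h1.1.of_eq (eo (by
      abel_nf <;> simp only [ch2, ch3, ch4, add_zero, zero_add])) rfl)
  have h4 : D.q (s + y) k = e := by
    rw [← h2.2]
    exact q_eq' (h2.1.of_eq (eo (by
      abel_nf <;> simp only [ch2, ch3, ch4, add_zero, zero_add])) rfl)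
  have h5 : C D (s + y) (r + k) := q_eq_iff.1 (h3.trans h4.symm)
  -- `t1 = r + (y + k)`
  have h6 : D.q (s + y) (y + (r + k)) = c := qa (X.third h) h5
  have h7 : D.q s (y + (s + r)) = c := qa h ((C.self X.he s).add h1.1)
  have h8 : Sg D c (y + (r + k) + (y + (s + r))) := by
    have h9 : D.q y (s + k) = c := qa (by rw [D.symm]; exact h) h2.1
    rw [show y + (r + k) + (y + (s + r)) = s + k from eo (by
      abel_nf <;> simp only [ch2, ch3, ch4, add_zero, zero_add])]
    exact Sg.right h9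
  have h9 := X.slot3 (Sg.right h6) (Sg.right h7) h8
  have h10 : C D (y + (r + k)) (s + y + (y + (s + r))) := by
    refine q_eq_iff.1 ?_
    rw [h9, D.symm, h6]
  have h11 : C D (y + (r + k)) r := h10.of_eq rfl (eo (by
      abel_nf <;> simp only [ch2, ch3, ch4, add_zero, zero_add]))
  exact ((h11.add' (C.self X.he r)).of_eq (eo (by
      abel_nf <;> simp only [ch2, ch3, ch4, add_zero, zero_add])) rfl).symm

/-- **section 2**: `y_e y'_b = 0` -/
theorem two {s y y' k k' : V} (h : D.q s y = c) (h' : D.q s y' = c) (h1 : Ee D e y s k)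
    (h2 : Ee D e y' s k') : C D (y' + k') k := by
  have h3 : D.q y' (s + y' + k') = c := qa (by
    rw [D.symm] at h'
    exact (q_eq ((C.self X.he y').of_eq rfl (eo (by
      abel_nf <;> simp only [ch2, ch3, ch4, add_zero, zero_add])))).trans h') h2.1
  have h4 : C D s (k + k') := q_eq_iff.1 (h1.2.trans h2.2.symm)
  have h5 : D.q s (y' + (k + k')) = c := qa h' h4
  have h6 : D.q y (s + k) = c := qa (by rw [D.symm]; exact h) h1.1
  have h7 : Sg D c (s + y' + k' + (y' + (k + k'))) := by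
    rw [show s + y' + k' + (y' + (k + k')) = s + k from eo (by
      abel_nf <;> simp only [ch2, ch3, ch4, add_zero, zero_add])]
    exact Sg.right h6
  have h8 := X.slot3 (Sg.right h3) (Sg.right h5) h7
  have h9 : C D (y' + k') (y' + (k + k')) := by
    have := q_eq'_iff.1 (h8.trans h5.symm)
    exact this.of_eq (eo (by
      abel_nf <;> simp only [ch2, ch3, ch4, add_zero, zero_add])) rfl
  have h10 := h9.add (C.self X.he (y' + k'))
  exact h10.of_eq rfl (eo (by
      abel_nf <;> simp only [ch2, ch3, ch4, add_zero, zero_add]))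

/-- `s y_b = b` -/
theorem yb {s y k : V} (h : D.q s y = c) (h1 : Ee D e y s k) : D.q s (y + k) = b :=
  X.add s y k h h1.2

/-- the two parts of `V_s` commute -/
theorem cen {s y k v v' : V} (h : D.q s y = c) (h1 : Ee D e y s k) (hv : C D s v)
    (hv' : C D s v') (g : C D v (y + k)) (g' : C D v' k) : C D v v' := by
  have h2 : D.q s (y + (v + v')) = c := qa h (hv.add hv')
  obtain ⟨k', h3⟩ := X.exE (s := y + (v + v')) (y := s) (by rw [D.symm]; exact h2)
  -- `u_e = k + k'`
  have h4 : C D s (k + k') := q_eq_iff.1 (h1.2.trans h3.2.symm)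
  have a1 : C D (y + k) k := (h1.1.add' (C.self X.he k))
  have a2 : C D (y + k) k' := X.two h2 h h3 h1
  have a3 : C D (y + (v + v') + k') k := X.two h h2 h1 h3
  have a4 : C D (y + (v + v') + k') k' := h3.1.add' (C.self X.he k')
  have h5 : v + (k + k') = 0 := by
    refine X.slot3' h (hv.add h4) ?_
    have b1 : C D (y + k) (v + (k + k')) := g.symm.add (a1.add a2)
    have b2 : C D k (v + (k + k')) := by
      have b3 : C D k (y + k + (y + (v + v') + k')) := a1.symm.add a3.symm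
      have b4 := b3.add g'.symm
      exact b4.of_eq rfl (eo (by
        abel_nf <;> simp only [ch2, ch3, ch4, add_zero, zero_add]))
    exact (b1.add' b2).of_eq (eo (by
        abel_nf <;> simp only [ch2, ch3, ch4, add_zero, zero_add])) rfl
  have h6 : v = k + k' := eo h5
  have h7 : v' = y + k + (y + (v + v') + k') := eo (by
    have e1 : v' + (y + k + (y + (v + v') + k')) = v + (k + k') := eo (by
      abel_nf <;> simp only [ch2, ch3, ch4, add_zero, zero_add])
    rw [e1, h5])
  have h8 : C D (k + k') (y + k + (y + (v + v') + k')) :=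
    (a1.symm.add' a2.symm).add (a3.symm.add' a4.symm)
  exact h8.of_eq h6.symm h7.symm

/-- `s_e` does not depend on the neighbour -/
theorem ind {s y y' r : V} (h : D.q s y = c) (h' : D.q s y' = c) (h1 : Ee D e s y r) :
    Ee D e s y' r := by
  refine ⟨h1.1, ?_⟩
  obtain ⟨k, h2⟩ := X.exE (s := y) (y := s) (by rw [D.symm]; exact h)
  obtain ⟨k', h3⟩ := X.exE (s := y') (y := s) (by rw [D.symm]; exact h')
  have g1 : C D r (y + k) := X.gz h h1 h2
  have g2 : C D (s + r) k := by
    have := X.gz (s := y) (y := s) (by rw [D.symm]; exact h) h2 h1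
    exact this.symm
  have a1 : C D (y + k) k := (h2.1.add' (C.self X.he k))
  have a2 : C D (y + k) k' := X.two h' h h3 h2
  have a3 : C D (y' + k') k := X.two h h' h2 h3
  have a4 : C D (y' + k') k' := (h3.1.add' (C.self X.he k'))
  -- `u_b` and `u_e`
  have u1 : C D s (y + k + (y' + k')) :=
    q_eq_iff.1 ((X.yb h h2).trans (X.yb h' h3).symm)
  have u2 : C D s (k + k') := q_eq_iff.1 (h2.2.trans h3.2.symm)
  have c1 : C D r (y + k + (y' + k')) := X.cen h h2 h1.1 u1 g1 (a1.add' a3)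
  have c2 : C D (k + k') (s + r) := X.cen h h2 u2 ((C.self X.he s).add h1.1)
    (a1.symm.add' a2.symm) g2
  have d1 : C D r (y' + k') := (c1.add g1).of_eq rfl (eo (by
    abel_nf <;> simp only [ch2, ch3, ch4, add_zero, zero_add]))
  have d2 : C D (s + r) k' := (c2.symm.add g2).of_eq rfl (eo (by
    abel_nf <;> simp only [ch2, ch3, ch4, add_zero, zero_add]))
  have e1 : D.q r y' = D.q r k' := q_eq d1
  have e2 : D.q s k' = D.q r k' := q_eq' d2
  rw [D.symm, e1, ← e2, h3.2]

theorem exSe {s : V} (hs : Sg D c s) : ∃ r, Se D c e s r := by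
  obtain ⟨y, hy⟩ := hs
  obtain ⟨r, hr⟩ := X.exE hy
  exact ⟨r, hr.1, fun y' hy' => (X.ind hy hy' hr).2⟩

/-- `s_e + t_b` is a slot, adjacent to the common neighbours -/
theorem slotSS {s t r r' y : V} (hr : Se D c e s r) (hr' : Se D c e t r') (h : D.q s y = c)
    (h' : D.q t y = c) : D.q y (r + (t + r')) = c := by
  have h1 : C D y (r + r') := q_eq_iff.1 ((hr.2 y h).trans (hr'.2 y h').symm)
  have h2 := qa (by rw [D.symm]; exact h' : D.q y t = c) h1
  rwa [show t + (r + r') = r + (t + r') from by abel] at h2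

theorem slotS {s t r r' : V} (hs : Sg D c s) (ht : Sg D c t) (hr : Se D c e s r)
    (hr' : Se D c e t r') : Sg D c (r + (t + r')) := by
  obtain ⟨y, h1, h2⟩ := hs.common ht
  exact Sg.right (X.slotSS hr hr' h1 h2)

/-- `(s + y)_e = s_e + y_e` -/
theorem seAdd {s y r k : V} (h : D.q s y = c) (hr : Se D c e s r) (hk : Se D c e y k) :
    Se D c e (s + y) (r + k) := by
  have h3 : D.q (s + y) r = e := by
    rw [← hr.2 y h]
    exact q_eq' (hr.1.of_eq (eo (by
      abel_nf <;> simp only [ch2, ch3, ch4, add_zero, zero_add])) rfl)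
  have h4 : D.q (s + y) k = e := by
    rw [← hk.2 s (by rw [D.symm]; exact h)]
    exact q_eq' (hk.1.of_eq (eo (by
      abel_nf <;> simp only [ch2, ch3, ch4, add_zero, zero_add])) rfl)
  have h5 : C D (s + y) (r + k) := q_eq_iff.1 (h3.trans h4.symm)
  have h6 : D.q s (r + k) = e := by
    rw [← hk.2 s (by rw [D.symm]; exact h)]
    exact q_eq (hr.1.of_eq rfl (eo (by
      abel_nf <;> simp only [ch2, ch3, ch4, add_zero, zero_add])))
  exact ⟨h5, fun y' hy' => (X.ind (X.third' h) hy' ⟨h5, h6⟩).2⟩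

theorem gzS {s y r k : V} (h : D.q s y = c) (hr : Se D c e s r) (hk : Se D c e y k) :
    C D r (y + k) :=
  X.gz h ⟨hr.1, hr.2 y h⟩ ⟨hk.1, hk.2 s (by rw [D.symm]; exact h)⟩

/-- **section 3** `S^e · S^b = 0` -/
theorem orth {s x r k : V} (hs : Sg D c s) (hx : Sg D c x) (hr : Se D c e s r)
    (hk : Se D c e x k) : C D r (x + k) := by
  obtain ⟨t, ht⟩ := hx
  have hx : Sg D c x := ⟨t, ht⟩
  have ht' : Sg D c t := Sg.right ht
  obtain ⟨r', hr'⟩ := X.exSe ht'
  obtain ⟨y0, h1, h2⟩ := hs.common ht'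
  have hy0 : Sg D c y0 := Sg.right h1
  obtain ⟨k0, hk0⟩ := X.exSe hy0
  have hA : Sg D c (r + (t + r')) := X.slotS hs ht' hr hr'
  have hB : Sg D c (k0 + (x + k)) := X.slotS hy0 hx hk0 hk
  have htx : D.q t x = c := by rw [D.symm]; exact ht
  have hAB : Sg D c (r + (t + r') + (k0 + (x + k))) := by
    have := X.slotS (s := s + y0) (t := t + x) ⟨y0, X.third h1⟩ ⟨x, X.third htx⟩
      (X.seAdd h1 hr hk0) (X.seAdd htx hr' hk)
    rwa [show r + k0 + (t + x + (r' + k)) = r + (t + r') + (k0 + (x + k)) from by abel] at this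
  have h3 := X.slot3 hA hB hAB
  have h4 : D.q (r + (t + r')) y0 = c := by
    rw [D.symm]
    exact X.slotSS hr hr' h1 h2
  have h5 : C D (r + (t + r')) ((x + k) + (y0 + k0)) := by
    have := q_eq_iff.1 (h3.trans h4.symm)
    exact this.of_eq rfl (by abel)
  have h6 : C D t ((x + k) + (y0 + k0)) :=
    q_eq_iff.1 ((X.yb htx ⟨hk.1, hk.2 t ht⟩).trans
      (X.yb h2 ⟨hk0.1, hk0.2 t (by rw [D.symm]; exact h2)⟩).symm)
  have h7 : C D r' ((x + k) + (y0 + k0)) := (X.gzS htx hr' hk).add (X.gzS h2 hr' hk0)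
  have h8 : C D r ((x + k) + (y0 + k0)) := (h5.add' (h6.add' h7)).of_eq (eo (by
    abel_nf <;> simp only [ch2, ch3, ch4, add_zero, zero_add])) rfl
  exact (h8.add (X.gzS h1 hr hk0)).of_eq rfl (eo (by
    abel_nf <;> simp only [ch2, ch3, ch4, add_zero, zero_add]))

/-- **THEOREM PROD** -/
theorem prod (h0 : ∃ s, Sg D c s) (ene : e ≠ D.z) (ec : e ≠ c) :
    ∃ Ve Vb : Submodule (ZMod 2) V,
      (∀ a ∈ Ve, ∀ a' ∈ Vb, C D a a') ∧
      Ve ⊔ Vb = Submodule.span (ZMod 2) {s | Sg D c s} ∧ Ve ⊓ Vb = ⊥ ∧ Ve ≠ ⊥ ∧ Vb ≠ ⊥ ∧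
      (∀ s, Sg D c s → ∃ r ∈ Ve, s + r ∈ Vb ∧ C D s r ∧ r ≠ 0 ∧ s + r ≠ 0 ∧
        ∀ v, C D s v → C D r v) ∧
      ∀ s v, Sg D c s → C D s v → ∃ a ∈ Ve, ∃ a' ∈ Vb, C D s a ∧ C D s a' ∧ v = a + a' := by
  let A : Set V := {r | ∃ s, Sg D c s ∧ Se D c e s r}
  let B : Set V := {r | ∃ s k, Sg D c s ∧ Se D c e s k ∧ r = s + k}
  have hAB : ∀ a ∈ A, ∀ a' ∈ B, C D a a' := by
    rintro a ⟨s, h1, h2⟩ a' ⟨x, k, h3, h4, rfl⟩
    exact X.orth h1 h3 h2 h4
  have hAB' : ∀ a ∈ Submodule.span (ZMod 2) A, ∀ a' ∈ Submodule.span (ZMod 2) B,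
      C D a a' := by
    intro a ha a' ha'
    have h1 : ∀ x ∈ A, C D x a' := by
      intro x hx
      induction ha' using Submodule.span_induction with
      | mem y hy => exact hAB x hx y hy
      | zero => exact C.zero x
      | add y y' _ _ hy hy' => exact hy.add hy'
      | smul t y _ hy =>
        rcases zm t with rfl | rfl
        · rw [zero_smul]; exact C.zero x
        · rw [one_smul]; exact hy
    induction ha using Submodule.span_induction with
    | mem x hx => exact h1 x hx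
    | zero => exact C.zero' a'
    | add y y' _ _ hy hy' => exact hy.add' hy'
    | smul t y _ hy =>
      rcases zm t with rfl | rfl
      · rw [zero_smul]; exact C.zero' a'
      · rw [one_smul]; exact hy
  have hsum : Submodule.span (ZMod 2) A ⊔ Submodule.span (ZMod 2) B =
      Submodule.span (ZMod 2) {s | Sg D c s} := by
    have h1 : ∀ s r, Sg D c s → Se D c e s r →
        r ∈ Submodule.span (ZMod 2) {s | Sg D c s} := by
      rintro s r ⟨y, hy⟩ hr
      have h2 : Sg D c (y + r) := Sg.right (qa hy hr.1)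
      have h3 := Submodule.add_mem _ (Submodule.subset_span (R := ZMod 2) (s := {s | Sg D c s})
        h2) (Submodule.subset_span (R := ZMod 2) (s := {s | Sg D c s}) (Sg.right hy : Sg D c y))
      rwa [show y + r + y = r from eo (by
        abel_nf <;> simp only [ch2, ch3, ch4, add_zero, zero_add])] at h3
    apply le_antisymm
    · refine sup_le (Submodule.span_le.2 ?_) (Submodule.span_le.2 ?_)
      · rintro r ⟨s, h2, h3⟩
        exact h1 s r h2 h3
      · rintro r ⟨s, k, h2, h3, rfl⟩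
        exact Submodule.add_mem _ (Submodule.subset_span h2) (h1 s k h2 h3)
    · refine Submodule.span_le.2 ?_
      intro s hs
      obtain ⟨r, hr⟩ := X.exSe hs
      have h2 := Submodule.add_mem _
        (Submodule.mem_sup_left (T := Submodule.span (ZMod 2) B)
          (Submodule.subset_span (⟨s, hs, hr⟩ : r ∈ A)))
        (Submodule.mem_sup_right (S := Submodule.span (ZMod 2) A)
          (Submodule.subset_span (⟨s, r, hs, hr, rfl⟩ : s + r ∈ B)))
      rwa [show r + (s + r) = s from eo (by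
        abel_nf <;> simp only [ch2, ch3, ch4, add_zero, zero_add])] at h2
  have hne : ∀ s r, Sg D c s → Se D c e s r → r ≠ 0 ∧ s + r ≠ 0 := by
    rintro s r ⟨y, hy⟩ hr
    refine ⟨?_, ?_⟩
    · rintro rfl
      exact ene ((hr.2 y hy).symm.trans (C.zero y))
    · intro h
      have h2 : s = r := eo h
      subst h2
      have := hr.2 y hy
      rw [D.symm, hy] at this
      exact ec this.symm
  have hbot : Submodule.span (ZMod 2) A ⊓ Submodule.span (ZMod 2) B = ⊥ := by
    rw [eq_bot_iff]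
    rintro v ⟨h1, h2⟩
    rw [Submodule.mem_bot]
    have h3 : ∀ s, Sg D c s → C D s v := by
      intro s hs
      obtain ⟨r, hr⟩ := X.exSe hs
      have h4 : C D r v := hAB' r (Submodule.subset_span ⟨s, hs, hr⟩) v h2
      have h5 : C D v (s + r) := hAB' v h1 (s + r) (Submodule.subset_span ⟨s, r, hs, hr, rfl⟩)
      exact (h4.add' h5.symm).of_eq (eo (by
        abel_nf <;> simp only [ch2, ch3, ch4, add_zero, zero_add])) rfl
    obtain ⟨s, y, hy⟩ := h0
    have hs : Sg D c s := ⟨y, hy⟩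
    exact X.slot3' hy (h3 s hs) (h3 y (Sg.right hy))
  obtain ⟨s0, hs0⟩ := h0
  obtain ⟨r0, hr0⟩ := X.exSe hs0
  refine ⟨Submodule.span (ZMod 2) A, Submodule.span (ZMod 2) B, hAB', hsum, hbot, ?_, ?_, ?_, ?_⟩
  · intro h
    have h1 : r0 ∈ Submodule.span (ZMod 2) A := Submodule.subset_span ⟨s0, hs0, hr0⟩
    rw [h, Submodule.mem_bot] at h1
    exact (hne s0 r0 hs0 hr0).1 h1
  · intro h
    have h1 : s0 + r0 ∈ Submodule.span (ZMod 2) B :=
      Submodule.subset_span ⟨s0, r0, hs0, hr0, rfl⟩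
    rw [h, Submodule.mem_bot] at h1
    exact (hne s0 r0 hs0 hr0).2 h1
  · intro s hs
    obtain ⟨r, hr⟩ := X.exSe hs
    refine ⟨r, Submodule.subset_span ⟨s, hs, hr⟩, Submodule.subset_span ⟨s, r, hs, hr, rfl⟩,
      hr.1, (hne s r hs hr).1, (hne s r hs hr).2, fun v hv => ?_⟩
    obtain ⟨y, hy⟩ := hs
    have h1 := hr.2 y hy
    have h2 := hr.2 (y + v) (qa hy hv)
    have h3 : C D (y + (y + v)) r := q_eq'_iff.1 (h1.trans h2.symm)
    exact (h3.of_eq (eo (by
      abel_nf <;> simp only [ch2, ch3, ch4, add_zero, zero_add])) rfl).symm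
  · intro s v hs hv
    obtain ⟨y, hy⟩ := hs
    obtain ⟨k, hk⟩ := X.exSe (Sg.right hy)
    have hy' : D.q s (y + v) = c := qa hy hv
    obtain ⟨k', hk'⟩ := X.exSe (Sg.right hy')
    have g1 : D.q s k = e := hk.2 s (by rw [D.symm]; exact hy)
    have g2 : D.q s k' = e := hk'.2 s (by rw [D.symm]; exact hy')
    have g3 : C D s (k + k') := q_eq_iff.1 (g1.trans g2.symm)
    refine ⟨k + k', Submodule.add_mem _ (Submodule.subset_span ⟨y, Sg.right hy, hk⟩)
      (Submodule.subset_span ⟨y + v, Sg.right hy', hk'⟩),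
      (y + k) + (y + v + k'), Submodule.add_mem _
        (Submodule.subset_span ⟨y, k, Sg.right hy, hk, rfl⟩)
      (Submodule.subset_span ⟨y + v, k', Sg.right hy', hk', rfl⟩), g3, ?_, ?_⟩
    · exact (g3.add hv).of_eq rfl (eo (by
        abel_nf <;> simp only [ch2, ch3, ch4, add_zero, zero_add]))
    · exact eo (by
        abel_nf <;> simp only [ch2, ch3, ch4, add_zero, zero_add])

end PR

/-- **THEOREM PROD** (note 2858, helper59): `c ≠ 0` strongly clean, `e ∈ K (c) - ⟨c⟩` -/
theorem prod' (he : D.e = 0) (h0 : ∃ s, Sg D c s)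
    (sc : ∀ s a, Sg D c s → Sg D c a → C D s a → a = s)
    (ke : ∀ s, Sg D c s → Sg D e s) (ene : e ≠ D.z) (ec : e ≠ c) :
    ∃ Ve Vb : Submodule (ZMod 2) V,
      (∀ a ∈ Ve, ∀ a' ∈ Vb, C D a a') ∧
      Ve ⊔ Vb = Submodule.span (ZMod 2) {s | Sg D c s} ∧ Ve ⊓ Vb = ⊥ ∧ Ve ≠ ⊥ ∧ Vb ≠ ⊥ ∧
      (∀ s, Sg D c s → ∃ r ∈ Ve, s + r ∈ Vb ∧ C D s r ∧ r ≠ 0 ∧ s + r ≠ 0 ∧
        ∀ v, C D s v → C D r v) ∧
      ∀ s v, Sg D c s → C D s v → ∃ a ∈ Ve, ∃ a' ∈ Vb, C D s a ∧ C D s a' ∧ v = a + a' := by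
  obtain ⟨s0, y0, hy0⟩ := h0
  obtain ⟨x0, hx0⟩ := ke s0 ⟨y0, hy0⟩
  have X : PR D c e (D.q s0 (y0 + x0)) := ⟨he, sc, ke, fun s y x h1 h2 =>
    ETC.add_common (h1.trans hy0.symm) (h2.trans hx0.symm)⟩
  exact X.prod ⟨s0, y0, hy0⟩ ene ec

end Pool.Agent.ETAB
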