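import Pool.Agent.ETAB.AB
import Pool.Agent.ETAB.Prod

/-!
**THEOREM MS** (note 2851, helper59): for a symbol `c` with inclusion-minimal set of slots the
only coset of `V_s` inside `S_c` is `N_s`; so the stabilizer of `S_c` commutes with all slots.
-/

set_option autoImplicit false
set_option linter.unusedSimpArgs false
set_option linter.unnecessarySeqFocus false
set_option linter.unusedSectionVars false

namespace Pool.Agent.ETAB

open Pool.Agent.Helper58.PLine (QData zm)
open Pool.Agent.ETCP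
open Pool.Agent.ETPF
open Pool.Agent.ETPG

variable {V Q : Type} [AddCommGroup V] [Module (ZMod 2) V] {D : QData V Q} {c : Q}

variable (D c) in
/-- the set of slots of `c` is inclusion-minimal among the symbols with the slot `t` -/
def Mn (t : V) : Prop := ∀ e, e ≠ D.z → Sg D e t → (∀ s, Sg D e s → Sg D c s) →
  ∀ s, Sg D c s → Sg D e s

/-- **THEOREM MS** at the slot `s` -/
theorem ms [Finite V] (cne : c ≠ D.z) {s v : V} (hs : Sg D c s) (hm : Mn D c s)
    (hv : ∀ w, C D s w → Sg D c (v + w)) : D.q s v = c := by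
  have h0 : D.q s v ≠ D.z := by
    intro h
    have h1 := hv v h
    rw [ZModModule.add_self] at h1
    obtain ⟨r, hr⟩ := h1
    exact cne (hr.symm.trans (C.zero' r))
  have h1 : ∀ s', Sg D (D.q s v) s' → Sg D c s' := fun s' hs' =>
    propagate (f := c) (g := D.q s v) (x := s) hs ⟨v, rfl⟩ (fun r hr => by
      have h2 := hv (v + r) (q_eq_iff.1 hr.symm)
      rwa [show v + (v + r) = r from eo (by
        abel_nf <;> simp only [ch2, ch3, ch4, add_zero, zero_add])] at h2) hs'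
  exact sg_inj (D := D) (s0 := s) ⟨v, rfl⟩ fun s' => ⟨h1 s', hm _ h0 ⟨v, rfl⟩ h1 s'⟩

/-- the stabilizer commutes with the slot `s` -/
theorem ms_stab [Finite V] (cne : c ≠ D.z) {s g : V} (hs : Sg D c s) (hm : Mn D c s)
    (hg : g ∈ Gm D c) : C D s g := by
  obtain ⟨y, hy⟩ := hs
  have h1 : D.q s (y + g) = c := ms cne ⟨y, hy⟩ hm fun w hw => by
    have h2 := hg _ (Sg.right (qa hy hw))
    rwa [show y + w + g = y + g + w from by abel] at h2
  have h2 := q_eq_iff.1 (h1.trans hy.symm)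
  exact h2.of_eq rfl (eo (by abel_nf <;> simp only [ch2, ch3, ch4, add_zero, zero_add]))

/-- if all symbols below `c` contain its slots, an element of the stabilizer commutes with the
span of the slots -/
theorem ms_center [Finite V] (cne : c ≠ D.z) (hm : ∀ s, Sg D c s → Mn D c s) {g : V}
    (hg : g ∈ Gm D c) : ∀ v ∈ Submodule.span (ZMod 2) {s | Sg D c s}, C D g v := by
  intro v hv
  induction hv using Submodule.span_induction with
  | mem x hx => exact (ms_stab cne hx (hm x hx) hg).symm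
  | zero => exact C.zero g
  | add y y' _ _ hy hy' => exact hy.add hy'
  | smul t y _ hy =>
    rcases zm t with rfl | rfl
    · rw [zero_smul]; exact C.zero g
    · rw [one_smul]; exact hy

/-- the set of slots of `c` is inclusion-minimal among the symbols `≠ 0` -/
theorem mn_of_min (h : ∀ e, e ≠ D.z → (∃ s, Sg D e s) → (∀ s, Sg D e s → Sg D c s) →
    ∀ s, Sg D c s → Sg D e s) (t : V) : Mn D c t :=
  fun e h1 h2 h3 => h e h1 ⟨t, h2⟩ h3

/-- below every symbol with a slot there is one with an inclusion-minimal set of slots -/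
theorem exists_min [Finite V] {f : Q} (fne : f ≠ D.z) (hf : ∃ s, Sg D f s) :
    ∃ c, c ≠ D.z ∧ (∃ s, Sg D c s) ∧ (∀ s, Sg D c s → Sg D f s) ∧
      ∀ e, e ≠ D.z → (∃ s, Sg D e s) → (∀ s, Sg D e s → Sg D c s) → ∀ s, Sg D c s → Sg D e s := by
  let A : Set ℕ := {n | ∃ c, c ≠ D.z ∧ (∃ s, Sg D c s) ∧ (∀ s, Sg D c s → Sg D f s) ∧
    {s | Sg D c s}.ncard = n}
  have hA : A.Nonempty := ⟨_, f, fne, hf, fun s h => h, rfl⟩
  obtain ⟨c, h1, h2, h3, h4⟩ := Nat.sInf_mem hA
  refine ⟨c, h1, h2, h3, fun e g1 g2 g3 s hs => ?_⟩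
  have h5 : {s | Sg D c s}.ncard ≤ {s | Sg D e s}.ncard := by
    rw [h4]
    exact Nat.sInf_le ⟨e, g1, g2, fun s hs => h3 s (g3 s hs), rfl⟩
  have h6 : {s | Sg D e s} = {s | Sg D c s} :=
    Set.eq_of_subset_of_ncard_le (fun s hs => g3 s hs) h5 (Set.toFinite _)
  have h7 : s ∈ {s | Sg D e s} := by rw [h6]; exact hs
  exact h7

/-- **the noise-free world at one symbol** (notes 2851, 2858, 2877): for a symbol `c ≠ 0` with
inclusion-minimal set of slots, whose slots span `V`, if commuting slots of `c` differ by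
elements of the stabilizer, then `c` is strongly clean and no other symbol `≠ 0` has all its
slots, or `V` is an orthogonal direct sum. -/
theorem nf_one [Finite V] (he : D.e = 0) (cne : c ≠ D.z) (h0 : ∃ s, Sg D c s)
    (rad : ∀ v, (∀ w, C D v w) → v = 0)
    (hm : ∀ e, e ≠ D.z → (∃ s, Sg D e s) → (∀ s, Sg D e s → Sg D c s) →
      ∀ s, Sg D c s → Sg D e s)
    (sp : Submodule.span (ZMod 2) {s | Sg D c s} = ⊤)
    (nf : ∀ s s', Sg D c s → Sg D c s' → C D s s' → s + s' ∈ Gm D c) :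
    (∀ s a, Sg D c s → Sg D c a → C D s a → a = s) ∧ (∀ g, g ∈ Gm D c → g = 0) ∧
    ((∀ e, e ≠ D.z → (∀ s, Sg D c s → Sg D e s) → e = c) ∨
      ∃ Ve Vb : Submodule (ZMod 2) V, (∀ a ∈ Ve, ∀ a' ∈ Vb, C D a a') ∧ Ve ⊔ Vb = ⊤ ∧
        Ve ⊓ Vb = ⊥ ∧ Ve ≠ ⊥ ∧ Vb ≠ ⊥) := by
  have hT : ∀ g, g ∈ Gm D c → g = 0 := fun g hg => rad g fun w =>
    ms_center cne (fun s _ => mn_of_min hm s) hg w (by rw [sp]; exact Submodule.mem_top)
  have sc : ∀ s a, Sg D c s → Sg D c a → C D s a → a = s := fun s a h1 h2 h3 =>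
    (eo (hT _ (nf s a h1 h2 h3))).symm
  refine ⟨sc, hT, ?_⟩
  by_contra hcon
  push Not at hcon
  obtain ⟨⟨e, h1, h2, h3⟩, h4⟩ := hcon
  obtain ⟨Ve, Vb, g1, g2, g3, g4, g5, -⟩ := prod' he h0 sc h2 h1 h3
  exact g5 (h4 Ve Vb g1 (g2.trans sp) g3 g4)

end Pool.Agent.ETAB
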